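import Mathlib

/-!
# A poset with `(3^n - 1)/2` elements containing all `n`-element posets as covering subsets

The elements are pairs `(i, f)` with `i < n` and `f : {0, ..., i-1} → {0, 1, 2}`; the value `0`
means not below, `1` means below but not a lower cover, and `2` means lower cover.
-/

namespace Pool.Agent.Results.MP_390115_co.CoverUniversal

/-- `P` contains `Q` as a covering subset: there is an order embedding of `Q` into `P` which
sends covering pairs to covering pairs. -/
def ContainsCovering (P Q : Type) [PartialOrder P] [PartialOrder Q] : Prop :=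
  ∃ f : Q → P, (∀ x y : Q, f x ≤ f y ↔ x ≤ y) ∧ ∀ x y : Q, x ⋖ y → f x ⋖ f y

/-- `P` contains every ordered set with at most `n` elements as a covering subset. -/
def CoverUniv (n : ℕ) (P : Type) [PartialOrder P] : Prop :=
  ∀ (Q : Type) [PartialOrder Q] [Fintype Q], Fintype.card Q ≤ n → ContainsCovering P Q

/-- The least size of an ordered set containing every ordered set with at most `n` elements as
a covering subset. -/
noncomputable def b (n : ℕ) : ℕ :=
  sInf {m | ∃ (P : Type) (_ : PartialOrder P) (_ : Fintype P), Fintype.card P = m ∧ CoverUniv n P}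

/-- The elements of the universal ordered set. -/
structure U (n : ℕ) : Type where
  pt : (i : Fin n) × (Fin i.val → Fin 3)

/-- The strict order of the universal ordered set. -/
def R {n : ℕ} (x y : U n) : Prop :=
  ∃ h : x.pt.1.val < y.pt.1.val, y.pt.2 ⟨x.pt.1.val, h⟩ ≠ 0 ∧
    ∀ j : Fin x.pt.1.val, x.pt.2 j ≠ 0 → y.pt.2 ⟨j.val, j.isLt.trans h⟩ = 1

lemma R_trans {n : ℕ} {x y z : U n} (h1 : R x y) (h2 : R y z) : R x z := by
  obtain ⟨h1, h3, h4⟩ := h1
  obtain ⟨h2, h5, h6⟩ := h2
  refine ⟨h1.trans h2, ?_, ?_⟩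
  · have := h6 _ h3
    rw [this]
    decide
  · intro j hj
    have h7 := h4 j hj
    exact h6 ⟨j.val, _⟩ (by rw [h7]; decide)

lemma R_irrefl {n : ℕ} (x : U n) : ¬ R x x := fun ⟨h, _⟩ => lt_irrefl _ h

instance (n : ℕ) : PartialOrder (U n) where
  le x y := x = y ∨ R x y
  le_refl x := Or.inl rfl
  le_trans x y z h1 h2 := by
    rcases h1 with rfl | h1
    · exact h2
    · rcases h2 with rfl | h2
      · exact Or.inr h1
      · exact Or.inr (R_trans h1 h2)
  le_antisymm x y h1 h2 := by
    rcases h1 with h1 | h1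
    · exact h1
    · rcases h2 with h2 | h2
      · exact h2.symm
      · exact (R_irrefl _ (R_trans h1 h2)).elim

lemma le_def {n : ℕ} (x y : U n) : x ≤ y ↔ x = y ∨ R x y := Iff.rfl

lemma lt_def {n : ℕ} (x y : U n) : x < y ↔ R x y := by
  rw [lt_iff_le_and_ne, le_def]
  constructor
  · rintro ⟨h | h, h2⟩
    · exact (h2 h).elim
    · exact h
  · intro h
    refine ⟨Or.inr h, ?_⟩
    rintro rfl
    exact R_irrefl _ h

/-- The points of `U n` as a sigma type. -/
def equivSigma (n : ℕ) : U n ≃ ((i : Fin n) × (Fin i.val → Fin 3)) where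
  toFun x := x.pt
  invFun x := ⟨x⟩
  left_inv _ := rfl
  right_inv _ := rfl

noncomputable instance (n : ℕ) : Fintype (U n) := Fintype.ofEquiv _ (equivSigma n).symm

lemma card_U (n : ℕ) : Fintype.card (U n) = (3 ^ n - 1) / 2 := by
  rw [Fintype.card_congr (equivSigma n), Fintype.card_sigma]
  simp only [Fintype.card_fun, Fintype.card_fin]
  rw [Fin.sum_univ_eq_sum_range (fun i => 3 ^ i) n]
  exact Nat.geomSum_eq (by norm_num) n

/-- A finite ordered set has an injective strictly monotone numbering. -/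
lemma exists_numbering (Q : Type) [PartialOrder Q] [Fintype Q] :
    ∃ r : Q → ℕ, Function.Injective r ∧ (∀ x y, x < y → r x < r y) ∧
      ∀ x, r x < Fintype.card Q := by
  classical
  let _ : Fintype (LinearExtension Q) := ‹Fintype Q›
  have hc : Fintype.card (LinearExtension Q) = Fintype.card Q := rfl
  let e := monoEquivOfFin (LinearExtension Q) hc
  have hinj : Function.Injective (toLinearExtension : Q → LinearExtension Q) := fun x y h => h
  refine ⟨fun x => (e.symm (toLinearExtension x)).val, ?_, ?_, ?_⟩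
  · intro x y h
    exact hinj (e.symm.injective (Fin.ext h))
  · intro x y h
    have h1 : toLinearExtension x ≤ toLinearExtension y := toLinearExtension.monotone h.le
    have h2 : toLinearExtension x ≠ toLinearExtension y := fun h' => h.ne (hinj h')
    have h3 : e.symm (toLinearExtension x) < e.symm (toLinearExtension y) :=
      e.symm.strictMono (lt_of_le_of_ne h1 h2)
    exact h3
  · intro x
    exact Fin.isLt _

lemma coverUniv_U (n : ℕ) : CoverUniv n (U n) := by
  classical
  intro Q _ _ hQ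
  obtain ⟨r, rinj, rmono, rlt⟩ := exists_numbering Q
  let f : (q : Q) → Fin (r q) → Fin 3 := fun q j =>
    if ∃ p, r p = j.val ∧ p ⋖ q then 2 else if ∃ p, r p = j.val ∧ p < q then 1 else 0
  let φ : Q → U n := fun q => ⟨⟨⟨r q, (rlt q).trans_le hQ⟩, f q⟩⟩
  have hf0 : ∀ (q : Q) (j : Fin (r q)), f q j ≠ 0 → ∃ p, r p = j.val ∧ p < q := by
    intro q j h
    simp only [f] at h
    split_ifs at h with h1 h2
    · obtain ⟨p, hp, hpq⟩ := h1
      exact ⟨p, hp, hpq.lt⟩
    · exact h2
    · exact (h rfl).elim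
  have hf0' : ∀ (q p : Q) (h : r p < r q), p < q → f q ⟨r p, h⟩ ≠ 0 := by
    intro q p h hpq
    simp only [f]
    split_ifs with h1 h2
    · decide
    · decide
    · exact (h2 ⟨p, rfl, hpq⟩).elim
  have hf1 : ∀ (q p : Q) (h : r p < r q), p < q → ¬ p ⋖ q → f q ⟨r p, h⟩ = 1 := by
    intro q p h hpq hn
    simp only [f]
    rw [if_neg, if_pos ⟨p, rfl, hpq⟩]
    rintro ⟨p', hp', hc⟩
    rw [rinj hp'] at hc
    exact hn hc
  have hf2 : ∀ (q p : Q) (h : r p < r q), p ⋖ q → f q ⟨r p, h⟩ = 2 := by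
    intro q p h hpq
    simp only [f]
    rw [if_pos ⟨p, rfl, hpq⟩]
  have hR : ∀ p q : Q, R (φ p) (φ q) ↔ p < q := by
    intro p q
    constructor
    · rintro ⟨h, h1, -⟩
      obtain ⟨p', hp', hlt⟩ := hf0 q _ h1
      rwa [rinj hp'] at hlt
    · intro hpq
      refine ⟨rmono p q hpq, hf0' q p _ hpq, ?_⟩
      intro j hj
      obtain ⟨l, hl, hlp⟩ := hf0 p j hj
      have h1 : r l < r q := rmono l q (hlp.trans hpq)
      have h2 := hf1 q l h1 (hlp.trans hpq) (fun hc => hc.2 hlp hpq)
      have h3 : (⟨r l, h1⟩ : Fin (r q)) = ⟨j.val, j.isLt.trans (rmono p q hpq)⟩ := Fin.ext hl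
      rw [h3] at h2
      exact h2
  have hinj : ∀ p q : Q, φ p = φ q → p = q := by
    intro p q h
    have h1 : (φ p).pt.1.val = (φ q).pt.1.val := by rw [h]
    exact rinj h1
  refine ⟨φ, ?_, ?_⟩
  · intro p q
    rw [le_def, hR]
    constructor
    · rintro (h | h)
      · exact (hinj _ _ h).le
      · exact h.le
    · intro h
      rcases h.eq_or_lt with rfl | h
      · exact Or.inl rfl
      · exact Or.inr h
  · intro p q hpq
    refine ⟨(lt_def _ _).2 ((hR p q).2 hpq.lt), ?_⟩
    intro z h1 h2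
    rw [lt_def] at h1 h2
    obtain ⟨h3, h4, -⟩ := h1
    obtain ⟨h5, -, h6⟩ := h2
    have h7 := h6 _ h4
    have h8 := hf2 q p (rmono p q hpq.lt) hpq
    have h9 : f q ⟨r p, rmono p q hpq.lt⟩ = 1 := h7
    rw [h8] at h9
    exact absurd h9 (by decide)

/-- **`b_n ≤ (3^n - 1)/2`, so `b_n = 2^{O(n)}`.** -/
theorem result (n : ℕ) :
    (∃ (P : Type) (_ : PartialOrder P) (_ : Fintype P),
      Fintype.card P = (3 ^ n - 1) / 2 ∧ CoverUniv n P) ∧
    b n ≤ (3 ^ n - 1) / 2 ∧
    (1 ≤ n → Real.logb 2 (b n) ≤ Real.logb 2 3 * n) := by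
  have h1 : ∃ (P : Type) (_ : PartialOrder P) (_ : Fintype P),
      Fintype.card P = (3 ^ n - 1) / 2 ∧ CoverUniv n P :=
    ⟨U n, inferInstance, inferInstance, card_U n, coverUniv_U n⟩
  have h2 : b n ≤ (3 ^ n - 1) / 2 := Nat.sInf_le h1
  refine ⟨h1, h2, fun hn => ?_⟩
  have h3 : 1 ≤ b n := by
    obtain ⟨P, _, _, hc, hP⟩ : b n ∈ {m | ∃ (P : Type) (_ : PartialOrder P) (_ : Fintype P),
        Fintype.card P = m ∧ CoverUniv n P} := Nat.sInf_mem ⟨_, h1⟩
    obtain ⟨f, -⟩ := hP Unit (by simpa using hn)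
    rw [← hc]
    exact Fintype.card_pos_iff.2 ⟨f ()⟩
  have h4 : b n ≤ 3 ^ n := by omega
  have h5 : (b n : ℝ) ≤ 3 ^ n := by exact_mod_cast h4
  have h6 : (0 : ℝ) < b n := by exact_mod_cast h3
  calc Real.logb 2 (b n) ≤ Real.logb 2 (3 ^ n) := Real.logb_le_logb_of_le (by norm_num) h6 h5
    _ = Real.logb 2 3 * n := by rw [Real.logb_pow]; ring

end Pool.Agent.Results.MP_390115_co.CoverUniversal
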